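import Mathlib
import Pool.Agent.Y635.CR.Fin

set_option autoImplicit false

/-!
# The canonical Ramsey theorem for blocks of consecutive primes up to the record gap size

Let `f(x) = log x (log₂ x)² log₄ x / (log₃ x)²`, the size of the largest gaps between consecutive primes that are
known to occur up to `x`. Let `χ_1, ..., χ_L` be any colourings of the finite sets of natural numbers, with
arbitrarily many colours, and let `H` be any scale between `log X` and `c f(X)`. There is one set `U` of `k + 1`
numbers on which ALL the colourings are canonical (Erdős–Rado), for the subsets of all sizes at once, and which has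
at least `X^(7/8)` translates that are blocks of `k + 1` consecutive primes `≡ a (mod q)` of `(X, 4X]`, of diameter
at most `H`, with gaps at least `c H`, each at least `A` times the preceding one, and with at most `K` primes at
distance at most `c f(X)`. The constants do not depend on the colourings nor on the number of colours.

For a function `F` of the differences: the values `F(p_(n+j) - p_(n+i))`, `i < j ≤ k`, are all equal, or depend
exactly on `i`, or exactly on `j`, or are pairwise different.

Method. Finite canonical Ramsey theorem for all sizes at once, including the comparison of sets of different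
sizes; the exact positions of the primes of the windows of the coloured Maynard-Tao theorem inside record windows
(`Pool.Agent.H362R2.RQ.stRQ`, helper362, on the record sieve of helper256 and helper410 and the sieve inside record
windows of helper312's team) are thinned out. Primes of a class in short intervals: `Pool.Agent.W126.PrimeShort`
(helper126, after helper142, helper295, helper180, helper154 and helper469). helper635.
-/

namespace Pool.Agent.Results.MP_f9960f_nt.CanonicalChains

/-- The record scale `f(x) = log x (log₂ x)² log₄ x / (log₃ x)²` (iterated natural logarithms). -/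
noncomputable def f (x : ℝ) : ℝ :=
  Real.log x * (Real.log (Real.log x)) ^ 2 * Real.log (Real.log (Real.log (Real.log x))) /
    (Real.log (Real.log (Real.log x))) ^ 2

/-- The `i`-th prime, numbered from `p 0 = 2`. -/
noncomputable def p (i : ℕ) : ℕ := Nat.nth Nat.Prime i

/-- The set `{p_n, …, p_{n+k}}` of `k + 1` consecutive primes. -/
noncomputable def block (n k : ℕ) : Finset ℕ := (Finset.range (k + 1)).image (fun i => p (n + i))

/-- The `i`-th smallest element of the finite set `Q`, counted from `0`. -/
noncomputable def elt (Q : Finset ℕ) (i : ℕ) : ℕ := Nat.nth (fun x => x ∈ Q) i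

/-- The elements of `Q` in the positions `I |Q|`. -/
noncomputable def kernel (I : ℕ → Finset ℕ) (Q : Finset ℕ) : Finset ℕ := (I Q.card).image (elt Q)

/-- The colouring `χ` is canonical on `T`: there are a set `I j` of positions for every size `j` and a relation `E`
between sizes such that two subsets `Q`, `Q'` of `T` have the same colour if and only if their sizes are in relation
and the elements of `Q` in the positions `I |Q|` are the same as the elements of `Q'` in the positions `I |Q'|`. -/
def Canonical {C : Type} (χ : Finset ℕ → C) (T : Finset ℕ) : Prop :=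
  ∃ (I : ℕ → Finset ℕ) (E : ℕ → ℕ → Prop), (∀ j, I j ⊆ Finset.range j) ∧
    ∀ Q Q' : Finset ℕ, Q ⊆ T → Q' ⊆ T → (χ Q = χ Q' ↔ E Q.card Q'.card ∧ kernel I Q = kernel I Q')

/-- The primes `p_n, …, p_{n+k}` lie in `(X, 4X]` and are `≡ a (mod q)`, at most `K` primes are at distance at most
`c f(X)` from `p_n`, the diameter of the block is at most `H`, its gaps are at least `c H`, and each gap is at least
`A` times the preceding one. -/
def Chain (q a K : ℕ) (A c X H : ℝ) (k n : ℕ) : Prop :=
  X < (p n : ℝ) ∧ (p (n + k) : ℝ) ≤ 4 * X ∧ (∀ i ≤ k, p (n + i) ≡ a [MOD q]) ∧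
    {p' : ℕ | p'.Prime ∧ |(p' : ℝ) - p n| ≤ c * f X}.ncard ≤ K ∧
    (p (n + k) : ℝ) - p n ≤ H ∧ (∀ i < k, c * H ≤ (p (n + i + 1) : ℝ) - p (n + i)) ∧
    ∀ i, i + 1 < k → A * ((p (n + i + 1) : ℝ) - p (n + i)) ≤ (p (n + i + 2) : ℝ) - p (n + i + 1)

/-- The values of `F` at the differences of the primes of the block are all equal, or depend exactly on the smaller
prime, or exactly on the larger prime, or are pairwise different. -/
def FourTypes {C : Type} (F : ℕ → C) (k n : ℕ) : Prop :=
  (∀ i j i' j' : ℕ, i < j → j ≤ k → i' < j' → j' ≤ k →
    F (p (n + j) - p (n + i)) = F (p (n + j') - p (n + i'))) ∨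
  (∀ i j i' j' : ℕ, i < j → j ≤ k → i' < j' → j' ≤ k →
    (F (p (n + j) - p (n + i)) = F (p (n + j') - p (n + i')) ↔ i = i')) ∨
  (∀ i j i' j' : ℕ, i < j → j ≤ k → i' < j' → j' ≤ k →
    (F (p (n + j) - p (n + i)) = F (p (n + j') - p (n + i')) ↔ j = j')) ∨
  ∀ i j i' j' : ℕ, i < j → j ≤ k → i' < j' → j' ≤ k →
    (F (p (n + j) - p (n + i)) = F (p (n + j') - p (n + i')) ↔ i = i' ∧ j = j')

/-- **Canonical Ramsey theorem for blocks of consecutive primes.** For all `k`, `L` and `A` there are `K` and
`c > 0`, and for all squarefree `q` and `a` prime to `q` there is `X₀`, such that for all `X ≥ X₀` and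
`log X ≤ H ≤ c f(X)`:

1. For all colourings `χ 0, ..., χ (L - 1)` of the finite subsets of `ℕ`, with any set of colours, there is a set
`U` on which all the `χ l` are canonical and which has at least `X^(7/8)` translates that are blocks of `k + 1`
consecutive primes with the properties `Chain`; every `χ l` which is invariant under translations is canonical on
these blocks.
2. For every function `F` on the natural numbers there are at least `X^(7/8)` such blocks of one of the four types
for `F`. -/
theorem result (k L : ℕ) (A : ℝ) : ∃ K : ℕ, ∃ c : ℝ, 0 < c ∧ ∀ q a : ℕ, Squarefree q → a.Coprime q →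
    ∃ X₀ : ℝ, ∀ X : ℝ, X₀ ≤ X → ∀ H : ℝ, Real.log X ≤ H → H ≤ c * f X →
    (∀ (C : Type) (χ : Fin L → Finset ℕ → C), ∃ U : Finset ℕ, (∀ l, Canonical (χ l) U) ∧
      X ^ (7 / 8 : ℝ) ≤ ({n : ℕ | Chain q a K A c X H k n ∧
        (∃ N, block n k = U.image (fun u => N + u)) ∧
        ∀ l, (∀ (Q : Finset ℕ) (b : ℕ), χ l (Q.image (fun x => b + x)) = χ l Q) →
          Canonical (χ l) (block n k)}.ncard : ℝ)) ∧
    ∀ (C : Type) (F : ℕ → C),
      X ^ (7 / 8 : ℝ) ≤ ({n : ℕ | Chain q a K A c X H k n ∧ FourTypes F k n}.ncard : ℝ) :=
  Pool.Agent.Y635.CR.final k L A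

end Pool.Agent.Results.MP_f9960f_nt.CanonicalChains
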