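import Pool.Agent.Y831.RC8.Full8

set_option autoImplicit false

/-!
# Long gaps in almost all intervals, explicitly and in the full range

For `c < 1/4` and every `K` above a constant, almost all intervals `(n, n + K log X]`, `n` in an
interval of length `X`, contain `c log X min (log log K) (log log X / 8)` consecutive integers with
a prime factor at most `X^δ`.

Method.  The covering sieve with Brun-Hooley majorants of single colours (library `Y831/RC5`) is
applied to all the windows `(n + j q, n + j q + F]`, `j < J`, at once; the new step is an asymptotic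
formula (as an upper bound) for the second moment of the sieve weights of two windows, by
comparison of the joint law of the two colourings with the product law (library `Y831/RC6`).  If
`K` is larger than a power of `log X`, the residue classes of the two windows collide at some
primes; after a projection to the colours that matter the joint law is then dominated by a product
law with perturbed densities (libraries `Y831/RC7` and `Y831/RC8`).
-/

namespace Pool.Agent.Results.MP_f9960f_nt.GapsInAlmostAllIntervals

/-- The interval `(n, n + H]` contains a block `a + 1, …, a + ⌊F⌋` of consecutive integers each of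
which has a prime factor at most `y`. -/
def HasRun (F y H : ℝ) (n : ℤ) : Prop :=
  ∃ a : ℤ, n ≤ a ∧ (a : ℝ) + F ≤ n + H ∧ ∀ k : ℕ, 1 ≤ k → (k : ℝ) ≤ F →
    ∃ p : ℕ, p.Prime ∧ (p : ℝ) ≤ y ∧ (p : ℤ) ∣ a + k

theorem result (c δ η : ℝ) (hc : 0 < c) (hc4 : c < 1 / 4) (hδ : 0 < δ) (hη : 0 < η) :
    ∃ K₀ X₀ : ℝ, ∀ X : ℝ, X₀ ≤ X → ∀ K : ℝ, K₀ ≤ K → ∀ M : ℝ,
      ({n : ℤ | M < n ∧ (n : ℝ) ≤ M + X ∧
        ¬ HasRun (c * (Real.log X * min (Real.log (Real.log K)) (Real.log (Real.log X) / 8)))
          (X ^ δ) (K * Real.log X) n}.ncard : ℝ) ≤ η * X := by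
  classical
  obtain ⟨T₀, X₀, h⟩ := Pool.Agent.Y831.RC.almost10 c δ η hc hc4 hδ hη
  refine ⟨Real.exp T₀, X₀, fun X hX0 K hK M => ?_⟩
  have hK0 : 0 < K := (Real.exp_pos T₀).trans_le hK
  have hT₀ : T₀ ≤ Real.log K := by rw [Real.le_log_iff_exp_le hK0]; exact hK
  have h2 := h X hX0 (Real.log K) hT₀ M
  rw [Real.exp_log hK0] at h2
  have h3 : {n : ℤ | M < n ∧ (n : ℝ) ≤ M + X ∧
      ¬ HasRun (c * (Real.log X * min (Real.log (Real.log K)) (Real.log (Real.log X) / 8)))
        (X ^ δ) (K * Real.log X) n} =
      (((Finset.Ioc ⌊M⌋ ⌊M + X⌋).filter (fun n : ℤ => ¬ Pool.Agent.Y831.RC.LongRun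
        (c * (Real.log X * min (Real.log (Real.log K)) (Real.log (Real.log X) / 8))) (X ^ δ)
          (K * Real.log X) n) : Finset ℤ) : Set ℤ) := by
    ext n
    rw [Set.mem_ofPred_eq, Finset.mem_coe, Finset.mem_filter, Finset.mem_Ioc, Int.floor_lt,
      Int.le_floor, and_assoc]
    rfl
  rw [h3, Set.ncard_coe_finset]
  exact h2

end Pool.Agent.Results.MP_f9960f_nt.GapsInAlmostAllIntervals
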