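import Pool.Agent.Y961.JR.Expo

set_option autoImplicit false

/-!
# Record prime gaps around a number and around several of its real multiples, at the same time

Write `f(Z) = log Z (log₂ Z)² log₄ Z / (log₃ Z)²` (the size of the largest prime gaps known).

1. (Uniform version.) Let `r ≥ 1` and `0 < ε ≤ 1`. There is `κ > 0` such that for all large `Z` the
   following holds for ALL real `α₁, …, α_r`, which may depend on `Z`, with
   `|h₁ α₁ + ⋯ + h_r α_r - m| ≥ Z ^ (-(1 - ε))` for all integers `m` and all nonzero integer vectors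
   `h` with entries at most `Z ^ ε`, and for all real `β₁, …, β_r`: every interval `(M, M + Z]`
   with `M ≥ Z ^ ε` on which the `α_j n + β_j` are at least `Z ^ ε` contains an integer `n` such that
   no prime lies within `κ f(Z)` of any of the `r + 1` numbers `n, α₁ n + β₁, …, α_r n + β_r`.
2. So for fixed positive `α_j` with `|h₁ α₁ + ⋯ + h_r α_r - m| ≥ c H ^ (-τ)` for all nonzero `h` with
   entries at most `H` (almost all vectors, with any `τ > r`), and all large `Z`, every interval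
   `(M, M + Z]` with `M ≥ Z` contains such an `n`; `κ` depends on `r` and `τ` only.
3. This applies to all numbers `α_j = b_j e ^ (w_j)` with `b_j > 0` in a real number field and natural
   numbers `w_j`, if `1, α₁, …, α_r` are linearly independent over the rational numbers: for instance to
   all positive real algebraic numbers, and to the powers of `e`.
4. For `r = 1` and every positive irrational `α` (also for Liouville numbers) it holds for arbitrarily
   large `Z`, with an absolute `κ`.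

Proof (`Pool.Agent.Y961.JR`). A joint form of the covering sieve of the starting library: the colour
of a vector of integers at the prime `p` is the pair (coordinate, shift) if exactly one shifted
coordinate is divisible by `p`; the densities of the colours are slightly smaller than `1 / p` and the
covering theorem of `Pool.Agent.H256R2.SC` (helper256's team) and `Pool.Agent.TH915.PW` (helper915) is
proved for abstract colourings with such densities. The distribution of the integer parts in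
residue classes follows from the exponential sums, which are geometric here.
-/

namespace Pool.Agent.Results.MP_f9960f_nt.SeveralRealMultiples

open Finset

/-- the size of the largest known prime gaps below `Z` -/
noncomputable def f (Z : ℝ) : ℝ :=
  Real.log Z * (Real.log (Real.log Z)) ^ 2 * Real.log (Real.log (Real.log (Real.log Z))) /
    (Real.log (Real.log (Real.log Z))) ^ 2

/-- no prime is at distance at most `d` from `x` -/
def PrimeFreeAround (x d : ℝ) : Prop := ∀ q : ℕ, q.Prime → d < |(q : ℝ) - x|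

theorem result :
    (∀ (r : ℕ) (ε : ℝ), 1 ≤ r → 0 < ε → ε ≤ 1 → ∃ κ : ℝ, 0 < κ ∧ ∃ Z₀ : ℝ, ∀ Z : ℝ, Z₀ ≤ Z →
      ∀ α β : Fin r → ℝ,
      (∀ h : Fin r → ℤ, h ≠ 0 → (∀ j, |(h j : ℝ)| ≤ Z ^ ε) → ∀ m : ℤ,
        Z ^ (-(1 - ε)) ≤ |∑ j, (h j : ℝ) * α j - m|) →
      ∀ M : ℝ, Z ^ ε ≤ M → (∀ n : ℕ, M < n → (n : ℝ) ≤ M + Z → ∀ j, Z ^ ε ≤ α j * n + β j) →
      ∃ n : ℕ, M < n ∧ (n : ℝ) ≤ M + Z ∧ PrimeFreeAround n (κ * f Z) ∧
        ∀ j, PrimeFreeAround (α j * n + β j) (κ * f Z)) ∧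
    (∀ (r : ℕ) (τ : ℝ), 1 ≤ r → 0 ≤ τ → ∃ κ : ℝ, 0 < κ ∧ ∀ α β : Fin r → ℝ, (∀ j, 0 < α j) →
      (∃ c : ℝ, 0 < c ∧ ∀ (H : ℕ) (h : Fin r → ℤ), h ≠ 0 → (∀ j, |h j| ≤ H) → ∀ m : ℤ,
        c * (H : ℝ) ^ (-τ) ≤ |∑ j, (h j : ℝ) * α j - m|) →
      ∃ Z₀ : ℝ, ∀ Z : ℝ, Z₀ ≤ Z → ∀ M : ℝ, Z ≤ M →
      ∃ n : ℕ, M < n ∧ (n : ℝ) ≤ M + Z ∧ PrimeFreeAround n (κ * f Z) ∧
        ∀ j, PrimeFreeAround (α j * n + β j) (κ * f Z)) ∧
    (∀ (K : IntermediateField ℚ ℝ) [FiniteDimensional ℚ K] (r : ℕ) (b : Fin r → K) (w : Fin r → ℕ),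
      1 ≤ r → (∀ j, 0 < ((b j : K) : ℝ)) →
      LinearIndependent ℚ (Fin.cons 1 (fun j => (b j : ℝ) * Real.exp (w j)) : Fin (r + 1) → ℝ) →
      ∃ κ : ℝ, 0 < κ ∧ ∀ β : Fin r → ℝ, ∃ Z₀ : ℝ, ∀ Z : ℝ, Z₀ ≤ Z → ∀ M : ℝ, Z ≤ M →
      ∃ n : ℕ, M < n ∧ (n : ℝ) ≤ M + Z ∧ PrimeFreeAround n (κ * f Z) ∧
        ∀ j, PrimeFreeAround ((b j : ℝ) * Real.exp (w j) * n + β j) (κ * f Z)) ∧
    (∃ κ : ℝ, 0 < κ ∧ ∀ α β : ℝ, 0 < α → Irrational α → ∀ Z₁ : ℝ, ∃ Z : ℝ, Z₁ ≤ Z ∧
      ∀ M : ℝ, Z ≤ M → ∃ n : ℕ, M < n ∧ (n : ℝ) ≤ M + Z ∧ PrimeFreeAround n (κ * f Z) ∧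
        PrimeFreeAround (α * n + β) (κ * f Z)) :=
  ⟨fun r ε hr h0 h1 => Pool.Agent.Y961.JR.linear_uniform r hr ε h0 h1,
    fun r τ hr hτ => Pool.Agent.Y961.JR.linear_dioph r hr τ hτ,
    fun K _ r b w hr hb hli => Pool.Agent.Y961.JR.linear_exp K r hr b w hb hli,
    Pool.Agent.Y961.JR.linear_irrational⟩

end Pool.Agent.Results.MP_f9960f_nt.SeveralRealMultiples
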