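import Pool.Agent.Y830.SQ.Fin

/-!
# Squares of sieve weights: universality of the Poisson law, and its sharp threshold

Author: helper830.  The known methods for large gaps between primes weigh an integer `n` by the
square `V(n)^2` of a function `V` of level `R` (a linear combination of functions with periods
`d ≤ R`), where `R` is a power of the size of `n`, in order to make many integers `n + h` (`h ∈ H`)
divisible by primes of a set `P`.  The theorem determines the capacity of these weights: it is of
the exact order `log R`.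
* If `H` has at least `C log R` elements then *every* weight `V ^ 2` of level `R` sees the same law
  as the uniform weight: the number of surviving sites (those without prime factors in `P`) has the
  factorial moments of a Poisson variable, and it is Poisson in total variation if its mean is
  bounded.
* For every `H` with between `(c/2) log R` and `c log R` elements there is a weight `V ^ 2` of level
  `R` with a mean of at most `1/3` surviving sites, although their mean for the uniform weight
  tends to infinity.

Proof of the first part.  Let `A_p` be the average over the coordinate of `n` at the prime `p`.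
Squares enter through the level inequality `∑ log p ‖V - A_p V‖² ≤ log R ‖V‖²` (helper835).  The
primes of `P` are sieved in increasing order; the `r`-th binomial moment changes by the factor
`1 - r/p`, up to `τ/p` and up to `O(1/τ)` times the `(r-1)`-st binomial moment for the weight
`(V - A_p V)²`, in which a prime hits at most one site; induction on `r`.  The second part uses the
weight of the covering sieve (starting files, helper256).
-/

set_option autoImplicit false

namespace Pool.Agent.Results.MP_f9960f_nt.SquareWeightsPoisson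

open Finset

/-- `V` is a function of level `R`: a finite sum of functions with periods `W d`, where `d ≤ R`;
`N` is a common multiple of these periods.  The modulus `W` is free: arbitrary conditions modulo `W`
cost nothing. -/
def HasLevel (W N : ℕ) (R : ℝ) (V : ℕ → ℝ) : Prop :=
  ∃ (I : Finset ℕ) (d : ℕ → ℕ) (f : ℕ → ℕ → ℝ),
    (∀ i ∈ I, 0 < d i ∧ (d i : ℝ) ≤ R ∧ W * d i ∣ N ∧ Function.Periodic (f i) (W * d i)) ∧
    ∀ n, V n = ∑ i ∈ I, f i n

/-- Sieving primes `P` for the sites `H`: they divide the period `N` and not the free modulus `W`,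
and the sites are pairwise incongruent modulo each of them. -/
def Admissible (H P : Finset ℕ) (W N : ℕ) : Prop :=
  0 < N ∧ ∀ p ∈ P, p.Prime ∧ p ∣ N ∧ ¬ p ∣ W ∧ Set.InjOn (fun h => h % p) (H : Set ℕ)

open Classical in
/-- The number of the sites `h ∈ H` for which `n + h` has no prime factor in `P`. -/
noncomputable def surv (H P : Finset ℕ) (n : ℕ) : ℕ := (H.filter (fun h => ∀ p ∈ P, ¬ p ∣ n + h)).card

/-- The mean of `surv H P` for the uniform weight. -/
noncomputable def mean (H P : Finset ℕ) : ℝ := H.card * ∏ p ∈ P, (1 - 1 / (p : ℝ))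

/-- **The Poisson law for squares of functions of level `R` and `C log R` sites, and the optimality
of `log R`.** -/
theorem result :
    -- the factorial moments, for an arbitrary mean
    (∀ (r : ℕ) (ε : ℝ), 0 < ε → ∃ C : ℝ, 0 < C ∧
      ∀ (R : ℝ) (H P : Finset ℕ) (W N : ℕ) (V : ℕ → ℝ), 2 ≤ R → C * Real.log R ≤ H.card →
        Admissible H P W N → HasLevel W N R V →
        |∑ n ∈ range N, V n ^ 2 * ((surv H P n).choose r : ℕ) -
            mean H P ^ r / (r.factorial : ℕ) * ∑ n ∈ range N, V n ^ 2| ≤
          ε * (mean H P ^ r / (r.factorial : ℕ) * ∑ n ∈ range N, V n ^ 2)) ∧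
    -- the Poisson law in total variation, for a bounded mean
    (∀ M ε : ℝ, 0 < M → 0 < ε → ∃ C : ℝ, 0 < C ∧
      ∀ (R : ℝ) (H P : Finset ℕ) (W N : ℕ) (V : ℕ → ℝ), 2 ≤ R → C * Real.log R ≤ H.card →
        Admissible H P W N → HasLevel W N R V → mean H P ≤ M →
        ∀ g : ℕ → ℝ, (∀ j, |g j| ≤ 1) →
        |∑ n ∈ range N, V n ^ 2 * g (surv H P n) -
            (∑' j : ℕ, Real.exp (-mean H P) * mean H P ^ j / (j.factorial : ℕ) * g j) *
              ∑ n ∈ range N, V n ^ 2| ≤
          ε * ∑ n ∈ range N, V n ^ 2) ∧
    -- the order `log R` of the number of sites is optimal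
    (∃ c : ℝ, 0 < c ∧ ∀ M : ℝ, ∃ R₀ : ℝ, ∀ (R : ℝ) (H P : Finset ℕ) (N : ℕ), R₀ ≤ R →
      c / 2 * Real.log R ≤ H.card → (H.card : ℝ) ≤ c * Real.log R →
      (∀ p : ℕ, p ∈ P ↔ p.Prime ∧ (Real.log R) ^ 2 < p ∧ (p : ℝ) ≤ R ^ (1 / 10 : ℝ)) →
      Admissible H P 1 N → M ≤ mean H P ∧ ∃ V : ℕ → ℝ, HasLevel 1 N R V ∧
        0 < ∑ n ∈ range N, V n ^ 2 ∧
        ∑ n ∈ range N, V n ^ 2 * (surv H P n : ℝ) ≤ 1 / 3 * ∑ n ∈ range N, V n ^ 2) := by
  refine ⟨?_, ?_, ?_⟩
  · intro r ε hε
    obtain ⟨C, hC, h⟩ := Pool.Agent.Y830.SQ.moments r ε hε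
    refine ⟨C, hC, fun R H P W N V h1 h2 h3 h4 => ?_⟩
    exact h R H P W N V h1 h2 h3 h4
  · intro M ε hM hε
    obtain ⟨C, hC, h⟩ := Pool.Agent.Y830.SQ.law M hM ε hε
    refine ⟨C, hC, fun R H P W N V h1 h2 h3 h4 h5 g hg => ?_⟩
    exact h R H P W N V h1 h2 h3 h4 h5 g hg
  · obtain ⟨c, hc, h⟩ := Pool.Agent.Y830.SQ.sharp
    refine ⟨c, hc, fun M => ?_⟩
    obtain ⟨R₀, h0⟩ := h M
    refine ⟨R₀, fun R H P N h1 h2 h3 h4 h5 => ?_⟩
    exact h0 R H P N h1 h2 h3 h4 h5

end Pool.Agent.Results.MP_f9960f_nt.SquareWeightsPoisson
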